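import Pool.Agent.H69.LQ.Lib
import Pool.Agent.H69.LNN.Targets

set_option autoImplicit false

/-!
# (L4) the part of degree `1` of a function, by Hölder's inequality
-/

open MeasureTheory Metric Set
open scoped ENNReal

namespace Pool.Agent.H81.LNN

open Pool.Agent.H85.LK (E adm lam Ann)
open Pool.Agent.H69.LQ Pool.Agent.H69.LNN

section

variable {N : ℕ}

/-- a diagonal array -/
noncomputable def dA (c : Fin N → ℝ) (i j : Fin N) : ℝ := if i = j then c i * c j else 0

theorem dA_sum (c : Fin N → ℝ) (i : Fin N) : ∑ j, dA c i j = c i ^ 2 := by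
  unfold dA
  rw [Finset.sum_ite_eq, if_pos (Finset.mem_univ _)]
  ring

theorem l4_sum (c : Fin N → ℝ) :
    ∑ i, ∑ j, ∑ k, ∑ m, c i * c j * c k * c m *
      ((if i = j ∧ k = m then (1 : ℝ) else 0) + (if i = k ∧ j = m then 1 else 0) +
        (if i = m ∧ j = k then 1 else 0)) = 3 * (∑ i, c i ^ 2) ^ 2 := by
  have h : ∀ i j k m, c i * c j * c k * c m *
      ((if i = j ∧ k = m then (1 : ℝ) else 0) + (if i = k ∧ j = m then 1 else 0) +
        (if i = m ∧ j = k then 1 else 0)) =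
      dA c i j * dA c k m + dA c i k * dA c j m + dA c i m * dA c j k := by
    intro i j k m
    have e1 : c i * c j * c k * c m * (if i = j ∧ k = m then (1 : ℝ) else 0) =
        dA c i j * dA c k m := by
      unfold dA
      by_cases h1 : i = j <;> by_cases h2 : k = m <;> simp [h1, h2]
      ring
    have e2 : c i * c j * c k * c m * (if i = k ∧ j = m then (1 : ℝ) else 0) =
        dA c i k * dA c j m := by
      unfold dA
      by_cases h1 : i = k <;> by_cases h2 : j = m <;> simp [h1, h2]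
      ring
    have e3 : c i * c j * c k * c m * (if i = m ∧ j = k then (1 : ℝ) else 0) =
        dA c i m * dA c j k := by
      unfold dA
      by_cases h1 : i = m <;> by_cases h2 : j = k <;> simp [h1, h2]
      ring
    rw [mul_add, mul_add, e1, e2, e3]
  simp_rw [h, Finset.sum_add_distrib]
  have s1 : ∑ i, ∑ j, ∑ k, ∑ m, dA c i j * dA c k m = (∑ i, c i ^ 2) ^ 2 := by
    simp_rw [← Finset.mul_sum, dA_sum, ← Finset.sum_mul, dA_sum]
    ring
  have s2 : ∑ i, ∑ j, ∑ k, ∑ m, dA c i k * dA c j m = (∑ i, c i ^ 2) ^ 2 := by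
    have h2 : ∀ i j, ∑ k, ∑ m, dA c i k * dA c j m = c i ^ 2 * c j ^ 2 := by
      intro i j
      rw [← Finset.sum_mul_sum, dA_sum, dA_sum]
    simp_rw [h2, ← Finset.sum_mul_sum]
    ring
  have s3 : ∑ i, ∑ j, ∑ k, ∑ m, dA c i m * dA c j k = (∑ i, c i ^ 2) ^ 2 := by
    have h2 : ∀ i j, ∑ k, ∑ m, dA c i m * dA c j k = c i ^ 2 * c j ^ 2 := by
      intro i j
      rw [Finset.sum_comm, ← Finset.sum_mul_sum, dA_sum, dA_sum]
    simp_rw [h2, ← Finset.sum_mul_sum]
    ring
  rw [s1, s2, s3]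
  ring

/-- the linear function -/
noncomputable def li (c : Fin N → ℝ) (θ : Sp N) : ℝ := ∑ j, c j * (θ : E N) j

theorem BM_li (c : Fin N → ℝ) : BM (li c) := by
  have h := BM.sum (N := N) Finset.univ (F := fun j θ => c j * (θ : E N) j)
    fun j _ => (BM_coord j).const_mul (c j)
  exact h

theorem av_mul_li (F : Sp N → ℝ) (hF : BM F) (c : Fin N → ℝ) :
    av (fun θ => F θ * li c θ) = ∑ j, c j * av (fun θ => F θ * (θ : E N) j) := by
  have e : (fun θ => F θ * li c θ) = fun θ => ∑ j, c j * (F θ * (θ : E N) j) := by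
    funext θ
    unfold li
    rw [Finset.mul_sum]
    exact Finset.sum_congr rfl fun j _ => by ring
  rw [e, av_sum _ fun j _ => (hF.mul (BM_coord j)).const_mul (c j)]
  exact Finset.sum_congr rfl fun j _ => av_const_mul _ _

theorem av_li_sq (hMO : T_MO) (hN : 2 ≤ N) (c : Fin N → ℝ) :
    av (fun θ => li c θ ^ 2) = (∑ j, c j ^ 2) / N := by
  have e : (fun θ => li c θ ^ 2) = fun θ => li c θ * li c θ := by
    funext θ
    ring
  rw [e, av_mul_li _ (BM_li c), Finset.sum_div]
  refine Finset.sum_congr rfl fun j _ => ?_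
  have e2 : (fun θ => li c θ * (θ : E N) j) = fun θ : Sp N => (θ : E N) j * li c θ := by
    funext θ
    ring
  rw [e2, av_mul_li _ (BM_coord j)]
  have h : ∀ i, c i * av (fun θ : Sp N => (θ : E N) j * (θ : E N) i) =
      if j = i then c i * (1 / (N : ℝ)) else 0 := by
    intro i
    rw [(hMO N hN).2.2.1 j i]
    split_ifs <;> simp
  simp_rw [h]
  rw [Finset.sum_ite_eq, if_pos (Finset.mem_univ _)]
  ring

theorem av_li_four (hMO : T_MO) (hN : 2 ≤ N) (c : Fin N → ℝ) :
    av (fun θ => li c θ ^ 4) = 3 * (∑ j, c j ^ 2) ^ 2 / (N * (N + 2)) := by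
  have e : (fun θ => li c θ ^ 4) = fun θ : Sp N => ∑ i, ∑ j, ∑ k, ∑ m,
      c i * c j * c k * c m * ((θ : E N) i * (θ : E N) j * (θ : E N) k * (θ : E N) m) := by
    funext θ
    have h1 : ∀ i j k m, c i * c j * c k * c m *
        ((θ : E N) i * (θ : E N) j * (θ : E N) k * (θ : E N) m) =
        (c i * (θ : E N) i) * ((c j * (θ : E N) j) * ((c k * (θ : E N) k) *
          (c m * (θ : E N) m))) := by
      intro i j k m
      ring
    simp_rw [h1, ← Finset.mul_sum, ← Finset.sum_mul]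
    unfold li
    ring
  have b4 : ∀ i j k m, BM (fun θ : Sp N => c i * c j * c k * c m *
      ((θ : E N) i * (θ : E N) j * (θ : E N) k * (θ : E N) m)) := fun i j k m =>
    ((((BM_coord i).mul (BM_coord j)).mul (BM_coord k)).mul (BM_coord m)).const_mul _
  rw [e, av_sum _ fun i _ => BM.sum _ fun j _ => BM.sum _ fun k _ => BM.sum _ fun m _ =>
    b4 i j k m]
  have h2 : ∀ i, av (fun θ : Sp N => ∑ j, ∑ k, ∑ m, c i * c j * c k * c m *
      ((θ : E N) i * (θ : E N) j * (θ : E N) k * (θ : E N) m)) =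
      ∑ j, ∑ k, ∑ m, c i * c j * c k * c m *
      ((if i = j ∧ k = m then (1 : ℝ) else 0) + (if i = k ∧ j = m then 1 else 0) +
        (if i = m ∧ j = k then 1 else 0)) / ((N : ℝ) * (N + 2)) := by
    intro i
    rw [av_sum _ fun j _ => BM.sum _ fun k _ => BM.sum _ fun m _ => b4 i j k m]
    refine Finset.sum_congr rfl fun j _ => ?_
    rw [av_sum _ fun k _ => BM.sum _ fun m _ => b4 i j k m]
    refine Finset.sum_congr rfl fun k _ => ?_
    rw [av_sum _ fun m _ => b4 i j k m]
    refine Finset.sum_congr rfl fun m _ => ?_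
    rw [av_const_mul, (hMO N hN).2.2.2.2 i j k m]
    ring
  simp_rw [h2, ← Finset.sum_div]
  rw [l4_sum c]

theorem li_sq_le (c : Fin N → ℝ) (θ : Sp N) : li c θ ^ 2 ≤ ∑ j, c j ^ 2 := by
  have h := Finset.sum_mul_sq_le_sq_mul_sq Finset.univ c (fun j => (θ : E N) j)
  rw [sum_sq_sp θ, mul_one] at h
  exact h

end

theorem pf_L4 (_hMP : T_MP) (hMO : T_MO) : T_L4 := by
  intro N F hN hF
  have hN0 : (0 : ℝ) < N := by
    have : 0 < N := by omega
    exact_mod_cast this
  set c := c1 F with hc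
  have hn1 : n1 F = (∑ j, c j ^ 2) / N := rfl
  have hn0 : 0 ≤ n1 F := by
    rw [hn1]
    positivity
  have ha : av (fun θ => F θ * li c θ) = n1 F := by
    rw [av_mul_li F hF, hn1, Finset.sum_div]
    refine Finset.sum_congr rfl fun j _ => ?_
    have h : c j = N * av fun θ => F θ * (θ : E N) j := rfl
    rw [h]
    field_simp
  have hb : av (fun θ => li c θ ^ 2) = n1 F := by rw [av_li_sq hMO hN, hn1]
  have hl := BM_li c
  have h4 : av (fun θ => li c θ ^ 4) ≤ 3 * n1 F ^ 2 := by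
    rw [av_li_four hMO hN, hn1, div_pow, ← mul_div_assoc]
    refine div_le_div_of_nonneg_left (by positivity) (by positivity) (by nlinarith)
  rcases hn0.eq_or_lt with h0 | h0
  · rw [← h0]
    refine ⟨?_, av_sq_nonneg _, by positivity⟩
    have : 0 ≤ av (fun θ => |F θ| ^ (4 / 3 : ℝ)) :=
      av_nonneg fun θ => Real.rpow_nonneg (abs_nonneg _) _
    exact mul_nonneg zero_le_two (Real.rpow_nonneg this _)
  refine ⟨?_, ?_, ?_⟩
  · obtain ⟨hFm, M, hM⟩ := hF
    obtain ⟨hlm, M', hM'⟩ := hl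
    have hpq : (4 / 3 : ℝ).HolderConjugate 4 := by
      rw [Real.holderConjugate_iff]
      norm_num
    have hH := integral_mul_le_Lp_mul_Lq_of_nonneg (μ := mS N) hpq
      (f := fun θ => |F θ|) (g := fun θ => |li c θ|)
      (ae_of_all _ fun θ => abs_nonneg _) (ae_of_all _ fun θ => abs_nonneg _)
      (MemLp.of_bound hFm.norm.aestronglyMeasurable M (ae_of_all _ fun θ => by
        show ‖|F θ|‖ ≤ M
        rw [Real.norm_eq_abs, abs_abs]
        exact hM θ))
      (MemLp.of_bound hlm.norm.aestronglyMeasurable M' (ae_of_all _ fun θ => by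
        show ‖|li c θ|‖ ≤ M'
        rw [Real.norm_eq_abs, abs_abs]
        exact hM' θ))
    set A := av (fun θ => |F θ| ^ (4 / 3 : ℝ)) with hA
    have hA0 : 0 ≤ A := av_nonneg fun θ => Real.rpow_nonneg (abs_nonneg _) _
    have e4 : ∫ θ, |li c θ| ^ (4 : ℝ) ∂(mS N) = av (fun θ => li c θ ^ 4) := by
      refine integral_congr_ae (ae_of_all _ fun θ => ?_)
      show |li c θ| ^ (4 : ℝ) = li c θ ^ 4
      rw [show (4 : ℝ) = ((4 : ℕ) : ℝ) by norm_num, Real.rpow_natCast]
      exact Even.pow_abs (by decide) _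
    rw [e4] at hH
    have h1 : n1 F ≤ A ^ (3 / 4 : ℝ) * (3 * n1 F ^ 2) ^ (1 / 4 : ℝ) := by
      have hF' : BM F := ⟨hFm, M, hM⟩
      have hl' : BM (li c) := ⟨hlm, M', hM'⟩
      calc n1 F = av (fun θ => F θ * li c θ) := ha.symm
        _ ≤ av (fun θ => |F θ| * |li c θ|) := av_mono (hF'.mul hl') (hF'.abs.mul hl'.abs)
            fun θ => by rw [← abs_mul]; exact le_abs_self _
        _ ≤ A ^ (1 / (4 / 3) : ℝ) * (av (fun θ => li c θ ^ 4)) ^ (1 / 4 : ℝ) := hH
        _ ≤ A ^ (3 / 4 : ℝ) * (3 * n1 F ^ 2) ^ (1 / 4 : ℝ) := by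
            rw [show (1 / (4 / 3) : ℝ) = 3 / 4 by norm_num]
            refine mul_le_mul_of_nonneg_left ?_ (Real.rpow_nonneg hA0 _)
            exact Real.rpow_le_rpow (av_nonneg fun θ => by positivity) h4 (by norm_num)
    have h2 : n1 F ^ 4 ≤ A ^ 3 * (3 * n1 F ^ 2) := by
      have := pow_le_pow_left₀ hn0 h1 4
      rw [mul_pow, ← Real.rpow_natCast (A ^ (3 / 4 : ℝ)), ← Real.rpow_mul hA0,
        ← Real.rpow_natCast ((3 * n1 F ^ 2) ^ (1 / 4 : ℝ)), ← Real.rpow_mul (by positivity)] at this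
      norm_num at this
      exact this
    have h3 : n1 F ^ 2 ≤ 3 * A ^ 3 := by
      have h5 : 0 < n1 F ^ 2 := by positivity
      have : n1 F ^ 2 * n1 F ^ 2 ≤ 3 * A ^ 3 * n1 F ^ 2 := by nlinarith [h2]
      exact le_of_mul_le_mul_right this h5
    have h6 : (A ^ (3 / 2 : ℝ)) ^ 2 = A ^ 3 := by
      rw [← Real.rpow_natCast (A ^ (3 / 2 : ℝ)), ← Real.rpow_mul hA0,
        ← Real.rpow_natCast A]
      norm_num
    have h7 : 0 ≤ A ^ (3 / 2 : ℝ) := Real.rpow_nonneg hA0 _
    refine abs_le_of_sq_le_sq' ?_ (by positivity) |>.2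
    rw [mul_pow, h6]
    have : 0 ≤ A ^ 3 := by positivity
    linarith
  · have h1 := av_cs hF hl
    rw [ha, hb] at h1
    have : n1 F * n1 F ≤ av (fun θ => F θ ^ 2) * n1 F := by nlinarith
    exact le_of_mul_le_mul_right this h0
  · have hFa := hF.abs
    set s := Real.sqrt (∑ j, c j ^ 2) with hs
    have hs0 : 0 ≤ s := Real.sqrt_nonneg _
    have hs2 : s ^ 2 = N * n1 F := by
      rw [hs, Real.sq_sqrt (Finset.sum_nonneg fun j _ => sq_nonneg _), hn1]
      field_simp
    have h1 : n1 F ≤ av (fun θ => |F θ|) * s := by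
      calc n1 F = av (fun θ => F θ * li c θ) := ha.symm
        _ ≤ av (fun θ => |F θ| * s) := by
            refine av_mono (hF.mul hl) (hFa.mul (BM_const s)) fun θ => ?_
            calc F θ * li c θ ≤ |F θ * li c θ| := le_abs_self _
              _ = |F θ| * |li c θ| := abs_mul _ _
              _ ≤ |F θ| * s := mul_le_mul_of_nonneg_left
                  (Real.abs_le_sqrt (li_sq_le c θ)) (abs_nonneg _)
        _ = av (fun θ => |F θ|) * s := av_mul_const s _
    have h2 : n1 F ^ 2 ≤ av (fun θ => |F θ|) ^ 2 * (N * n1 F) := by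
      rw [← hs2, ← mul_pow]
      exact pow_le_pow_left₀ hn0 h1 2
    have : n1 F * n1 F ≤ N * av (fun θ => |F θ|) ^ 2 * n1 F := by nlinarith
    exact le_of_mul_le_mul_right this h0

end Pool.Agent.H81.LNN
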