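import Pool.Agent.H69.LQ.Lib
import Pool.Agent.H69.LNN.Targets

set_option autoImplicit false

/-!
# (TRU) smooth truncation
-/

open MeasureTheory Metric Set
open scoped ENNReal

namespace Pool.Agent.H81.LNN

open Pool.Agent.H85.LK (E adm lam Ann)
open Pool.Agent.H69.LQ Pool.Agent.H69.LNN

theorem pf_TRU : T_TRU := by
  intro M hM
  let b : ContDiffBump (0 : ℝ) := ⟨M, 2 * M, hM, by linarith⟩
  have hbc : Continuous b := b.continuous
  have hb1 : ∀ y : ℝ, |y| ≤ M → b y = 1 := fun y hy =>
    b.one_of_mem_closedBall (by rw [mem_closedBall, Real.dist_eq, sub_zero]; exact hy)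
  have hb0 : ∀ y : ℝ, 2 * M ≤ |y| → b y = 0 := fun y hy =>
    b.zero_of_le_dist (by rw [Real.dist_eq, sub_zero]; exact hy)
  have hder : ∀ x, HasDerivAt (fun x => ∫ y in (0 : ℝ)..x, b y) (b x) x := fun x =>
    intervalIntegral.integral_hasDerivAt_right (hbc.intervalIntegrable _ _)
      (hbc.stronglyMeasurableAtFilter _ _) hbc.continuousAt
  have hle : ∀ x : ℝ, |∫ y in (0 : ℝ)..x, b y| ≤ |x| := by
    intro x
    have h := intervalIntegral.norm_integral_le_of_norm_le_const (a := 0) (b := x)
      (f := fun y => b y) (C := 1) (fun y _ => by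
        rw [Real.norm_eq_abs, abs_of_nonneg b.nonneg]
        exact b.le_one)
    rwa [one_mul, sub_zero, Real.norm_eq_abs] at h
  refine ⟨fun x => ∫ y in (0 : ℝ)..x, b y, fun x => b x, ?_, hder, fun x => ⟨b.nonneg, b.le_one⟩,
    ?_, ?_⟩
  · rw [contDiff_infty_iff_deriv]
    refine ⟨fun x => (hder x).differentiableAt, ?_⟩
    have : deriv (fun x => ∫ y in (0 : ℝ)..x, b y) = fun x => b x := by
      funext x
      exact (hder x).deriv
    rw [this]
    exact b.contDiff
  · intro x hx
    have h1 : ∫ y in (0 : ℝ)..x, b y = ∫ y in (0 : ℝ)..x, (1 : ℝ) := by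
      refine intervalIntegral.integral_congr fun y hy => ?_
      refine hb1 y ?_
      have := abs_sub_left_of_mem_uIcc hy
      rw [sub_zero, sub_zero] at this
      exact this.trans hx
    show ∫ y in (0 : ℝ)..x, b y = x
    rw [h1, intervalIntegral.integral_const, smul_eq_mul, mul_one, sub_zero]
  · intro x
    show |∫ y in (0 : ℝ)..x, b y| ≤ 2 * M
    have h2M : |2 * M| = 2 * M := abs_of_pos (by linarith)
    rcases le_or_gt |x| (2 * M) with h | h
    · exact (hle x).trans h
    · rcases le_or_gt 0 x with h0 | h0
      · rw [abs_of_nonneg h0] at h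
        have h1 := intervalIntegral.integral_add_adjacent_intervals
          (hbc.intervalIntegrable (μ := volume) 0 (2 * M))
          (hbc.intervalIntegrable (μ := volume) (2 * M) x)
        have h2 : ∫ y in (2 * M)..x, b y = ∫ y in (2 * M)..x, (0 : ℝ) := by
          refine intervalIntegral.integral_congr fun y hy => ?_
          rw [uIcc_of_le h.le] at hy
          exact hb0 y (hy.1.trans (le_abs_self y))
        rw [← h1, h2, intervalIntegral.integral_zero, add_zero]
        exact (hle (2 * M)).trans h2M.le
      · rw [abs_of_neg h0] at h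
        have h1 := intervalIntegral.integral_add_adjacent_intervals
          (hbc.intervalIntegrable (μ := volume) 0 (-(2 * M)))
          (hbc.intervalIntegrable (μ := volume) (-(2 * M)) x)
        have h2 : ∫ y in (-(2 * M))..x, b y = ∫ y in (-(2 * M))..x, (0 : ℝ) := by
          refine intervalIntegral.integral_congr fun y hy => ?_
          rw [uIcc_of_ge (by linarith)] at hy
          exact hb0 y (by rw [abs_of_nonpos (by linarith [hy.2])]; linarith [hy.2])
        rw [← h1, h2, intervalIntegral.integral_zero, add_zero]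
        refine (hle (-(2 * M))).trans ?_
        rw [abs_neg]
        exact h2M.le

end Pool.Agent.H81.LNN
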