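import Pool.Agent.H69.LQ.Lib
import Pool.Agent.H69.LNN.Targets
import Pool.Agent.H69.LNN.Lib

set_option autoImplicit false

/-!
# (VI) the volume identity
-/

open MeasureTheory Metric Set
open scoped ENNReal

namespace Pool.Agent.H81.LNN

open Pool.Agent.H85.LK (E adm lam Ann)
open Pool.Agent.H69.LQ Pool.Agent.H69.LNN

theorem pf_VI (_hMP : T_MP) (hMO : T_MO) : T_VI := by
  intro N K ρ R d H hN hρ hR hd hH hδ hrel
  have hs : MeasurableSet (Gk K ρ) := meas_Gk hρ
  have h1 : av (fun _ : Sp N => (1 : ℝ)) = 1 := (hMO N hN).1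
  have hψ : BM (fun θ => psi (Pool.Agent.H69.LNN.hR R θ)) := BM_psi (BM_hR hR hδ)
  have hF1 : BM (fun θ => R θ ^ N - 1 - psi (Pool.Agent.H69.LNN.hR R θ)) :=
    ((hR.pow N).sub (BM_const 1)).sub hψ
  have hρ1 : BM (fun θ => ρ θ - 1) := hρ.sub (BM_const 1)
  have e1 : av (fun θ => ρ θ - 1) = av ρ - 1 := by
    have := av_sub hρ (BM_const (N := N) 1)
    rw [h1] at this
    exact this
  have e2 : av ((Gk K ρ).indicator fun θ => R θ ^ N - 1 - psi (Pool.Agent.H69.LNN.hR R θ)) +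
      av ((Gk K ρ).indicator d) + av ((Gk K ρ)ᶜ.indicator fun θ => ρ θ - 1) -
      av ((Gk K ρ).indicator H) + av ((Gk K ρ).indicator fun θ => psi (Pool.Agent.H69.LNN.hR R θ)) =
      av (fun θ => ρ θ - 1) := by
    rw [← av_add (BM_ind hF1 hs) (BM_ind hd hs),
      ← av_add ((BM_ind hF1 hs).add (BM_ind hd hs)) (BM_ind hρ1 hs.compl),
      ← av_sub (((BM_ind hF1 hs).add (BM_ind hd hs)).add (BM_ind hρ1 hs.compl)) (BM_ind hH hs),
      ← av_add ((((BM_ind hF1 hs).add (BM_ind hd hs)).add (BM_ind hρ1 hs.compl)).sub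
        (BM_ind hH hs)) (BM_ind hψ hs)]
    congr 1
    funext θ
    by_cases h : θ ∈ Gk K ρ
    · have h2 : θ ∉ (Gk K ρ)ᶜ := fun h' => h' h
      simp only [indicator_of_mem h, indicator_of_notMem h2]
      linarith [hrel θ]
    · have h2 : θ ∈ (Gk K ρ)ᶜ := h
      simp only [indicator_of_notMem h, indicator_of_mem h2]
      ring
  linarith

end Pool.Agent.H81.LNN
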